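import Pool.Agent.Hhelper47.PermExt.Lift

/-!
The lower bound `2 ^ (c √k)` for the extremal constant of `d`-dimensional permutation matrices.
-/

set_option autoImplicit false

namespace Pool.Agent.Hhelper47.PermExt

open Finset

/-- The range `√k ≥ 128`. -/
lemma large (k e : ℕ) (hk : (128:ℝ) ≤ √(k:ℝ)) :
    ∃ P : Finset (Fin (e + 2) → Fin k), IsPerm P ∧ ∀ n : ℕ, (2:ℝ) ^ √(k:ℝ) ≤ n →
      (2:ℝ) ^ (√(k:ℝ) / 36) * (n:ℝ) ^ (e + 1) ≤ f n P := by
  classical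
  set s := Nat.sqrt k with hs
  have hsk : s * s ≤ k := Nat.sqrt_le k
  have hsr : √(k:ℝ) < s + 1 := by
    have h1 : k < (s + 1) * (s + 1) := Nat.lt_succ_sqrt k
    rw [Real.sqrt_lt' (by positivity)]
    have : (k:ℝ) < ((s:ℝ) + 1) * (s + 1) := by exact_mod_cast h1
    nlinarith
  have hsr' : (s:ℝ) ≤ √(k:ℝ) := by
    apply Real.le_sqrt_of_sq_le
    have : ((s * s : ℕ) : ℝ) ≤ k := by exact_mod_cast hsk
    push_cast at this
    nlinarith
  have hs128 : 128 ≤ s := by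
    have : (128:ℝ) < s + 1 := lt_of_le_of_lt hk hsr
    have h2 : (127:ℝ) < s := by linarith
    have h3 : 127 < s := by exact_mod_cast h2
    omega
  -- the order of the basic block
  obtain ⟨m, hm⟩ : ∃ m, m + 1 = (s - 1) / 9 := ⟨(s - 1) / 9 - 1, by omega⟩
  have hm1 : 9 * (m + 1) + 1 ≤ s := by omega
  have hm2 : s ≤ 9 * (m + 1) + 9 := by omega
  obtain ⟨A₀, hA₀, hmin, hcard⟩ := core m
  refine ⟨permMat (transp s k hsk) e, isPerm_permMat (transp_involutive s k hsk).bijective e, ?_⟩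
  intro n hn
  have hpm : (0:ℝ) < (2:ℝ) ^ m := by positivity
  have h2n : 2 ^ m ≤ n := by
    have h1 : (2:ℝ) ^ (m:ℝ) ≤ (2:ℝ) ^ √(k:ℝ) := by
      apply Real.rpow_le_rpow_of_exponent_le (by norm_num)
      have : (m:ℝ) ≤ s := by
        have : m ≤ s := by omega
        exact_mod_cast this
      linarith
    rw [Real.rpow_natCast] at h1
    have h2 : ((2 ^ m : ℕ) : ℝ) ≤ n := by push_cast; linarith
    exact_mod_cast h2
  set T := n / 2 ^ m with hT
  have hTn : T * 2 ^ m ≤ n := Nat.div_mul_le_self _ _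
  have hTpos : 1 ≤ T := (Nat.one_le_div_iff (by positivity)).2 h2n
  have hTn' : n < (T + 1) * 2 ^ m := by
    have := Nat.lt_succ_floor ((n:ℝ) / 2 ^ m)
    rw [hT, Nat.add_mul, one_mul]
    have h3 := Nat.div_add_mod n (2 ^ m)
    have h4 := Nat.mod_lt n (show 0 < 2 ^ m by positivity)
    rw [Nat.mul_comm] at h3
    omega
  have hTr : (n:ℝ) ≤ 2 * T * 2 ^ m := by
    have h1 : n ≤ 2 * T * 2 ^ m := by
      refine hTn'.le.trans (Nat.mul_le_mul_right _ (by omega))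
    exact_mod_cast h1
  have hsub := blockDiag_subset (T := T) hA₀ hTn
  have havoid : ¬ Contains (cyl (blockDiag A₀ m T) n e) (permMat (transp s k hsk) e) := by
    intro h
    have h1 := hasMinor_of_contains hsk h
    have h2 : HasMinor (blockDiag A₀ m T) (9 * (m + 1) + 1) := by
      obtain ⟨x, y, hx, hy, hA⟩ := h1
      refine ⟨fun a b => x (Fin.castLE hm1 a) (Fin.castLE hm1 b),
        fun a b => y (Fin.castLE hm1 a) (Fin.castLE hm1 b), ?_, ?_, ?_⟩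
      · intro a a' b b' haa
        exact hx _ _ _ _ haa
      · intro a a' b b' hbb
        exact hy _ _ _ _ hbb
      · intro a b
        exact hA _ _
    exact blockDiag_avoid hA₀ hmin h2
  have h1 := le_f _ havoid
  have h2 := card_cyl (e := e) hsub
  have h3 : (T * A₀.card) * n ^ e ≤ f n (permMat (transp s k hsk) e) := by
    rw [← card_blockDiag hA₀]
    exact h2.trans h1
  have h4 : ((T:ℝ) * A₀.card) * (n:ℝ) ^ e ≤ f n (permMat (transp s k hsk) e) := by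
    exact_mod_cast h3
  refine le_trans ?_ h4
  rw [pow_succ', ← mul_assoc]
  apply mul_le_mul_of_nonneg_right _ (by positivity)
  calc (2:ℝ) ^ (√(k:ℝ) / 36) * n ≤ (2:ℝ) ^ (((m:ℝ) + 1) / 2 - 3) * (2 * T * 2 ^ m) := by
        apply mul_le_mul _ hTr (by positivity) (by positivity)
        apply Real.rpow_le_rpow_of_exponent_le (by norm_num)
        have h5 : (s:ℝ) ≤ 9 * ((m:ℝ) + 1) + 9 := by exact_mod_cast hm2
        linarith
    _ = T * (2:ℝ) ^ (2 * (m:ℝ) - ((m:ℝ) + 1) / 2 - 1) := by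
        have h6 : (2:ℝ) ^ (2 * (m:ℝ) - ((m:ℝ) + 1) / 2 - 1) =
            (2:ℝ) ^ (((m:ℝ) + 1) / 2 - 3) * (2:ℝ) ^ ((m:ℝ) + 1) := by
          rw [← Real.rpow_add (by norm_num)]
          congr 1
          ring
        rw [h6, Real.rpow_add (by norm_num), Real.rpow_natCast, Real.rpow_one]
        ring
    _ ≤ T * A₀.card := mul_le_mul_of_nonneg_left hcard (by positivity)

/-- The range `13 ≤ k`, `√k ≤ 128`. -/
lemma medium (k e : ℕ) (hk : 13 ≤ k) (hk' : √(k:ℝ) ≤ 128) :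
    ∃ P : Finset (Fin (e + 2) → Fin k), IsPerm P ∧ ∀ n : ℕ, (2:ℝ) ^ √(k:ℝ) ≤ n →
      (2:ℝ) ^ (√(k:ℝ) / 36) * (n:ℝ) ^ (e + 1) ≤ f n P := by
  classical
  refine ⟨permMat id e, isPerm_permMat Function.bijective_id e, ?_⟩
  intro n hn
  have h12 : 12 ≤ n := by
    have h1 : (18/5:ℝ) ≤ √(k:ℝ) := by
      apply Real.le_sqrt_of_sq_le
      have : (13:ℝ) ≤ k := by exact_mod_cast hk
      norm_num
      linarith
    have h2 : (12:ℝ) ≤ (2:ℝ) ^ (18/5:ℝ) := by
      have h3 : (12:ℝ) = ((12:ℝ) ^ (5:ℝ)) ^ (1/5:ℝ) := by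
        rw [← Real.rpow_mul (by norm_num)]; norm_num
      have h4 : (2:ℝ) ^ (18/5:ℝ) = ((2:ℝ) ^ (18:ℝ)) ^ (1/5:ℝ) := by
        rw [← Real.rpow_mul (by norm_num)]; norm_num
      rw [h3, h4]
      apply Real.rpow_le_rpow (by positivity) _ (by norm_num)
      have h5 : (12:ℝ) ^ (5:ℝ) = (12:ℝ) ^ (5:ℕ) := by exact_mod_cast Real.rpow_natCast 12 5
      have h6 : (2:ℝ) ^ (18:ℝ) = (2:ℝ) ^ (18:ℕ) := by exact_mod_cast Real.rpow_natCast 2 18
      rw [h5, h6]
      norm_num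
    have h3 : (2:ℝ) ^ (18/5:ℝ) ≤ (2:ℝ) ^ √(k:ℝ) :=
      Real.rpow_le_rpow_of_exponent_le (by norm_num) h1
    have h4 : (12:ℝ) ≤ n := by linarith
    exact_mod_cast h4
  have hsub : range 12 ×ˢ range n ⊆ range n ×ˢ range n := by
    apply product_subset_product_left
    exact range_subset_range.2 h12
  have havoid : ¬ Contains (cyl (range 12 ×ˢ range n) n e) (permMat (id : Fin k → Fin k) e) := by
    intro h
    obtain ⟨u, v, hu, -, -, hA⟩ := contains_cyl h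
    have h1 := hA ⟨12, by omega⟩
    simp only [mem_product, mem_range] at h1
    have hge : ∀ i : ℕ, ∀ hi : i < k, i ≤ u ⟨i, hi⟩ := by
      intro i
      induction i with
      | zero => intro _; omega
      | succ i ih =>
        intro hi
        have h2 := ih (by omega)
        have h3 : u ⟨i, by omega⟩ < u ⟨i + 1, hi⟩ := hu (by rw [Fin.mk_lt_mk]; omega)
        omega
    have := hge 12 (by omega)
    omega
  have h1 := (card_cyl (e := e) hsub).trans (le_f _ havoid)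
  rw [card_product, card_range, card_range] at h1
  have h4 : ((12:ℝ) * n) * (n:ℝ) ^ e ≤ f n (permMat (id : Fin k → Fin k) e) := by
    exact_mod_cast h1
  refine le_trans ?_ h4
  rw [pow_succ', ← mul_assoc]
  apply mul_le_mul_of_nonneg_right _ (by positivity)
  apply mul_le_mul_of_nonneg_right _ (by positivity)
  have h2 : (2:ℝ) ^ (√(k:ℝ) / 36) ≤ (2:ℝ) ^ (32/9:ℝ) := by
    apply Real.rpow_le_rpow_of_exponent_le (by norm_num)
    linarith
  refine h2.trans ?_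
  have h3 : (12:ℝ) = ((12:ℝ) ^ (9:ℝ)) ^ (1/9:ℝ) := by
    rw [← Real.rpow_mul (by norm_num)]; norm_num
  have h5 : (2:ℝ) ^ (32/9:ℝ) = ((2:ℝ) ^ (32:ℝ)) ^ (1/9:ℝ) := by
    rw [← Real.rpow_mul (by norm_num)]; norm_num
  rw [h3, h5]
  apply Real.rpow_le_rpow (by positivity) _ (by norm_num)
  have h6 : (12:ℝ) ^ (9:ℝ) = (12:ℝ) ^ (9:ℕ) := by exact_mod_cast Real.rpow_natCast 12 9
  have h7 : (2:ℝ) ^ (32:ℝ) = (2:ℝ) ^ (32:ℕ) := by exact_mod_cast Real.rpow_natCast 2 32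
  rw [h6, h7]
  norm_num

/-- The range `2 ≤ k ≤ 12`. -/
lemma small (k e : ℕ) (hk : 2 ≤ k) (hk' : k ≤ 12) :
    ∃ P : Finset (Fin (e + 2) → Fin k), IsPerm P ∧ ∀ n : ℕ, (2:ℝ) ^ √(k:ℝ) ≤ n →
      (2:ℝ) ^ (√(k:ℝ) / 36) * (n:ℝ) ^ (e + 1) ≤ f n P := by
  classical
  refine ⟨permMat id e, isPerm_permMat Function.bijective_id e, ?_⟩
  intro n hn
  have hsqrt : √(k:ℝ) ≤ 4 := by
    rw [Real.sqrt_le_left (by norm_num)]
    have : (k:ℝ) ≤ 12 := by exact_mod_cast hk'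
    linarith
  have hn2 : 2 ≤ n := by
    have h1 : (1:ℝ) ≤ √(k:ℝ) := by
      apply Real.le_sqrt_of_sq_le
      have : (2:ℝ) ≤ k := by exact_mod_cast hk
      linarith
    have h3 : (2:ℝ) ^ (1:ℝ) ≤ (2:ℝ) ^ √(k:ℝ) :=
      Real.rpow_le_rpow_of_exponent_le (by norm_num) h1
    rw [Real.rpow_one] at h3
    have h4 : (2:ℝ) ≤ n := by linarith
    exact_mod_cast h4
  set A : Finset (ℕ × ℕ) := ({0} ×ˢ range n) ∪ (Ioo 0 n ×ˢ {0}) with hA
  have hAc : A.card = n + (n - 1) := by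
    rw [hA, card_union_of_disjoint]
    · rw [card_product, card_product, card_range]
      simp
    · rw [Finset.disjoint_left]
      rintro ⟨a, b⟩ h h'
      simp only [mem_product, mem_singleton, mem_Ioo] at h h'
      omega
  have hsub : A ⊆ range n ×ˢ range n := by
    rintro ⟨a, b⟩ h
    simp only [hA, mem_union, mem_product, mem_singleton, mem_Ioo, mem_range] at h ⊢
    omega
  have havoid : ¬ Contains (cyl A n e) (permMat (id : Fin k → Fin k) e) := by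
    intro h
    obtain ⟨u, v, hu, hv, -, hA'⟩ := contains_cyl h
    have h1 := hA' ⟨1, by omega⟩
    have h2 : u ⟨0, by omega⟩ < u ⟨1, by omega⟩ := hu (by rw [Fin.mk_lt_mk]; omega)
    have h3 : v ⟨0, by omega⟩ < v ⟨1, by omega⟩ := hv (by rw [Fin.mk_lt_mk]; omega)
    simp only [hA, id, mem_union, mem_product, mem_singleton, mem_Ioo, mem_range] at h1
    omega
  have h1 := (card_cyl (e := e) hsub).trans (le_f _ havoid)
  rw [hAc] at h1
  have h4 : ((n:ℝ) + ((n - 1 : ℕ) : ℝ)) * (n:ℝ) ^ e ≤ f n (permMat (id : Fin k → Fin k) e) := by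
    exact_mod_cast h1
  refine le_trans ?_ h4
  rw [pow_succ', ← mul_assoc]
  apply mul_le_mul_of_nonneg_right _ (by positivity)
  have hn2' : (2:ℝ) ≤ n := by exact_mod_cast hn2
  have h5 : (2:ℝ) ^ (√(k:ℝ) / 36) ≤ 3 / 2 := by
    have h6 : (2:ℝ) ^ (√(k:ℝ) / 36) ≤ (2:ℝ) ^ (1/2:ℝ) := by
      apply Real.rpow_le_rpow_of_exponent_le (by norm_num)
      linarith
    refine h6.trans ?_
    rw [← Real.sqrt_eq_rpow, Real.sqrt_le_left (by norm_num)]
    norm_num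
  rw [Nat.cast_sub (by omega)]
  push_cast
  nlinarith

theorem main (d k : ℕ) (hd : 2 ≤ d) (hk : 2 ≤ k) :
    ∃ P : Finset (Fin d → Fin k), IsPerm P ∧ ∀ n : ℕ, (2:ℝ) ^ √(k:ℝ) ≤ n →
      (2:ℝ) ^ (√(k:ℝ) / 36) * (n:ℝ) ^ (d - 1) ≤ f n P := by
  obtain ⟨e, rfl⟩ : ∃ e, d = e + 2 := ⟨d - 2, by omega⟩
  have he : e + 2 - 1 = e + 1 := by omega
  rw [he]
  rcases le_or_gt (128:ℝ) √(k:ℝ) with h | h
  · exact large k e h
  · rcases le_or_gt 13 k with h' | h'
    · exact medium k e h' h.le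
    · exact small k e hk (by omega)

theorem le_M (d k : ℕ) (hd : 2 ≤ d) (hk : 2 ≤ k) :
    ENNReal.ofReal ((2:ℝ) ^ (√(k:ℝ) / 36)) ≤ M d k := by
  obtain ⟨P, hP, h⟩ := main d k hd hk
  obtain ⟨n, hn⟩ := exists_nat_ge ((2:ℝ) ^ √(k:ℝ))
  have hnpos : 1 ≤ n := by
    have h1 : (0:ℝ) < (2:ℝ) ^ √(k:ℝ) := by positivity
    have h2 : (0:ℝ) < n := by linarith
    exact_mod_cast h2
  have h1 := h n hn
  unfold M
  refine le_trans ?_ (le_iSup₂_of_le n hnpos (le_iSup₂_of_le P hP le_rfl))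
  have hne : ((n:ENNReal) ^ (d - 1)) ≠ 0 := by
    apply pow_ne_zero
    have : n ≠ 0 := by omega
    exact_mod_cast this
  have hnt : ((n:ENNReal) ^ (d - 1)) ≠ ⊤ := ENNReal.pow_ne_top (ENNReal.natCast_ne_top n)
  rw [ENNReal.le_div_iff_mul_le (Or.inl hne) (Or.inl hnt)]
  calc ENNReal.ofReal ((2:ℝ) ^ (√(k:ℝ) / 36)) * (n:ENNReal) ^ (d - 1)
      = ENNReal.ofReal ((2:ℝ) ^ (√(k:ℝ) / 36) * (n:ℝ) ^ (d - 1)) := by
        rw [ENNReal.ofReal_mul (by positivity), ENNReal.ofReal_pow (by positivity),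
          ENNReal.ofReal_natCast]
    _ ≤ ENNReal.ofReal (f n P : ℝ) := ENNReal.ofReal_le_ofReal h1
    _ = (f n P : ENNReal) := ENNReal.ofReal_natCast _

end Pool.Agent.Hhelper47.PermExt
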