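import Mathlib

/-!
Definitions for `MP_f36a55_co` (multidimensional permutation matrices).
A `d`-dimensional `n × ⋯ × n` 0-1 matrix is given by the set `A : Finset (Fin d → Fin n)` of the
positions of its `1`-entries.
-/

set_option autoImplicit false

namespace Pool.Agent.Hhelper47.PermExt

/-- `P` is a `d`-dimensional `k × ⋯ × k` permutation matrix: for every coordinate `l` and every
value `i`, exactly one `1`-entry of `P` has `l`-th coordinate `i`. -/
def IsPerm {d k : ℕ} (P : Finset (Fin d → Fin k)) : Prop :=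
  ∀ (l : Fin d) (i : Fin k), ∃! p : Fin d → Fin k, p ∈ P ∧ p l = i

/-- `A` contains `P`: there are indices `j l 1 < ⋯ < j l k` in each coordinate `l` such that
every `1`-entry of `P` is carried to a `1`-entry of `A`. -/
def Contains {d n k : ℕ} (A : Finset (Fin d → Fin n)) (P : Finset (Fin d → Fin k)) : Prop :=
  ∃ j : Fin d → Fin k → Fin n, (∀ l, StrictMono (j l)) ∧ ∀ p ∈ P, (fun l => j l (p l)) ∈ A

open Classical in
/-- `f(n, P, d)`: the maximum number of `1`-entries of a `d`-dimensional `n × ⋯ × n` 0-1 matrix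
which avoids `P`. -/
noncomputable def f (n : ℕ) {d k : ℕ} (P : Finset (Fin d → Fin k)) : ℕ :=
  ((Finset.univ : Finset (Finset (Fin d → Fin n))).filter (fun A => ¬ Contains A P)).sup
    Finset.card

/-- `M_d(k)`: the supremum of `f(n, P, d) / n ^ (d - 1)` over all `n ≥ 1` and all `d`-dimensional
`k × ⋯ × k` permutation matrices `P`. -/
noncomputable def M (d k : ℕ) : ENNReal :=
  ⨆ (n : ℕ) (_ : 1 ≤ n) (P : Finset (Fin d → Fin k)) (_ : IsPerm P),
    (f n P : ENNReal) / (n : ENNReal) ^ (d - 1)

lemma le_f {n d k : ℕ} {P : Finset (Fin d → Fin k)} (A : Finset (Fin d → Fin n))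
    (h : ¬ Contains A P) : A.card ≤ f n P := by
  classical
  unfold f
  apply Finset.le_sup (f := Finset.card)
  simp [h]

end Pool.Agent.Hhelper47.PermExt
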