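import Pool.Agent.Hhelper47.PermExt.Core
import Pool.Agent.Hhelper47.PermExt.Defs

/-!
Block diagonal matrices, cylinders, and the permutation matrix.
-/

set_option autoImplicit false

namespace Pool.Agent.Hhelper47.PermExt

open Finset

/-- Block diagonal matrix with `T` diagonal blocks equal to `A`. -/
def blockDiag (A : Finset (ℕ × ℕ)) (m T : ℕ) : Finset (ℕ × ℕ) :=
  (range T ×ˢ A).image (fun p : ℕ × (ℕ × ℕ) => (p.1 * 2 ^ m + p.2.1, p.1 * 2 ^ m + p.2.2))

lemma mem_blockDiag {A : Finset (ℕ × ℕ)} {m T : ℕ} (hA : A ⊆ range (2 ^ m) ×ˢ range (2 ^ m))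
    {x y : ℕ} (h : (x, y) ∈ blockDiag A m T) :
    x / 2 ^ m = y / 2 ^ m ∧ x / 2 ^ m < T ∧ (x % 2 ^ m, y % 2 ^ m) ∈ A := by
  simp only [blockDiag, mem_image, mem_product, mem_range, Prod.mk.injEq] at h
  obtain ⟨⟨s, p, q⟩, ⟨hs, hp⟩, rfl, rfl⟩ := h
  simp only at hs hp ⊢
  have h1 := hA hp
  simp only [mem_product, mem_range] at h1
  have h2 : 0 < 2 ^ m := by positivity
  have e1 : (s * 2 ^ m + p) / 2 ^ m = s := by
    rw [Nat.add_comm, Nat.add_mul_div_right _ _ h2, Nat.div_eq_of_lt h1.1, Nat.zero_add]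
  have e2 : (s * 2 ^ m + q) / 2 ^ m = s := by
    rw [Nat.add_comm, Nat.add_mul_div_right _ _ h2, Nat.div_eq_of_lt h1.2, Nat.zero_add]
  have e3 : (s * 2 ^ m + p) % 2 ^ m = p := by
    rw [Nat.add_comm, Nat.add_mul_mod_self_right, Nat.mod_eq_of_lt h1.1]
  have e4 : (s * 2 ^ m + q) % 2 ^ m = q := by
    rw [Nat.add_comm, Nat.add_mul_mod_self_right, Nat.mod_eq_of_lt h1.2]
  rw [e1, e2, e3, e4]
  exact ⟨rfl, hs, hp⟩

lemma card_blockDiag {A : Finset (ℕ × ℕ)} {m T : ℕ}
    (hA : A ⊆ range (2 ^ m) ×ˢ range (2 ^ m)) : (blockDiag A m T).card = T * A.card := by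
  unfold blockDiag
  rw [card_image_of_injOn, card_product, card_range]
  rintro ⟨s, p, q⟩ h ⟨s', p', q'⟩ h' he
  simp only [coe_product, Set.mem_prod, mem_coe, mem_range, Prod.mk.injEq] at h h' he
  have h1 := hA h.2
  have h1' := hA h'.2
  simp only [mem_product, mem_range] at h1 h1'
  have h2 : 0 < 2 ^ m := by positivity
  have hs : s = s' := by
    have e1 : (s * 2 ^ m + p) / 2 ^ m = s := by
      rw [Nat.add_comm, Nat.add_mul_div_right _ _ h2, Nat.div_eq_of_lt h1.1, Nat.zero_add]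
    have e2 : (s' * 2 ^ m + p') / 2 ^ m = s' := by
      rw [Nat.add_comm, Nat.add_mul_div_right _ _ h2, Nat.div_eq_of_lt h1'.1, Nat.zero_add]
    rw [← e1, he.1, e2]
  subst hs
  have hp : p = p' := by omega
  have hq : q = q' := by omega
  subst hp hq
  rfl

lemma blockDiag_subset {A : Finset (ℕ × ℕ)} {m T n : ℕ}
    (hA : A ⊆ range (2 ^ m) ×ˢ range (2 ^ m)) (hn : T * 2 ^ m ≤ n) :
    blockDiag A m T ⊆ range n ×ˢ range n := by
  rintro ⟨x, y⟩ h
  simp only [blockDiag, mem_image, mem_product, mem_range, Prod.mk.injEq] at h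
  obtain ⟨⟨s, p, q⟩, ⟨hs, hp⟩, rfl, rfl⟩ := h
  simp only at hs hp ⊢
  have h1 := hA hp
  simp only [mem_product, mem_range] at h1 ⊢
  have : (s + 1) * 2 ^ m ≤ T * 2 ^ m := Nat.mul_le_mul_right _ hs
  rw [Nat.add_mul, one_mul] at this
  omega

lemma blockDiag_avoid {A : Finset (ℕ × ℕ)} {m T R : ℕ}
    (hA : A ⊆ range (2 ^ m) ×ˢ range (2 ^ m)) (h : ¬ HasMinor A R) :
    ¬ HasMinor (blockDiag A m T) (R + 1) := by
  rintro ⟨x, y, hx, hy, hxy⟩
  apply h
  have key : ∀ a b : Fin R, x a.succ b.castSucc / 2 ^ m = x 0 (Fin.last R) / 2 ^ m ∧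
      y a.succ b.castSucc / 2 ^ m = x 0 (Fin.last R) / 2 ^ m := by
    intro a b
    have h1 : x 0 (Fin.last R) < x a.succ b.castSucc := hx _ _ _ _ (Fin.succ_pos a)
    have h2 : y a.succ b.castSucc < y 0 (Fin.last R) := hy _ _ _ _ (Fin.castSucc_lt_last b)
    have h3 := (mem_blockDiag hA (hxy a.succ b.castSucc)).1
    have h4 := (mem_blockDiag hA (hxy 0 (Fin.last R))).1
    have h5 := Nat.div_le_div_right (c := 2 ^ m) h1.le
    have h6 := Nat.div_le_div_right (c := 2 ^ m) h2.le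
    omega
  refine ⟨fun a b => x a.succ b.castSucc % 2 ^ m, fun a b => y a.succ b.castSucc % 2 ^ m,
    ?_, ?_, ?_⟩
  · intro a a' b b' haa
    have h1 := hx a.succ a'.succ b.castSucc b'.castSucc (Fin.succ_lt_succ_iff.2 haa)
    have h2 := (key a b).1
    have h3 := (key a' b').1
    have h4 := Nat.div_add_mod (x a.succ b.castSucc) (2 ^ m)
    have h5 := Nat.div_add_mod (x a'.succ b'.castSucc) (2 ^ m)
    rw [h2] at h4
    rw [h3] at h5
    simp only
    omega
  · intro a a' b b' hbb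
    have h1 := hy a.succ a'.succ b.castSucc b'.castSucc (by simpa using hbb)
    have h2 := (key a b).2
    have h3 := (key a' b').2
    have h4 := Nat.div_add_mod (y a.succ b.castSucc) (2 ^ m)
    have h5 := Nat.div_add_mod (y a'.succ b'.castSucc) (2 ^ m)
    rw [h2] at h4
    rw [h3] at h5
    simp only
    omega
  · intro a b
    exact (mem_blockDiag hA (hxy a.succ b.castSucc)).2.2

/-- Cylinder over a planar matrix. -/
def cyl (A : Finset (ℕ × ℕ)) (n e : ℕ) : Finset (Fin (e + 2) → Fin n) :=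
  univ.filter (fun z => ((z 0 : ℕ), (z 1 : ℕ)) ∈ A)

lemma card_cyl {A : Finset (ℕ × ℕ)} {n e : ℕ} (hA : A ⊆ range n ×ˢ range n) :
    A.card * n ^ e ≤ (cyl A n e).card := by
  classical
  have h1 : A.card * n ^ e = (A.attach ×ˢ (univ : Finset (Fin e → Fin n))).card := by
    rw [card_product, card_attach, card_univ, Fintype.card_fun]
    simp
  rw [h1]
  have hlt : ∀ p : {x // x ∈ A}, p.1.1 < n ∧ p.1.2 < n := by
    intro p
    have := hA p.2
    simpa only [mem_product, mem_range] using this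
  apply card_le_card_of_injOn
    (fun p : {x // x ∈ A} × (Fin e → Fin n) =>
      (Fin.cons ⟨p.1.1.1, (hlt p.1).1⟩ (Fin.cons ⟨p.1.1.2, (hlt p.1).2⟩ p.2 : Fin (e + 1) → Fin n) :
        Fin (e + 2) → Fin n))
  · intro p _
    simp only [cyl, coe_filter, mem_univ, true_and, Set.mem_ofPred_eq]
    have : (1 : Fin (e + 2)) = Fin.succ 0 := rfl
    rw [this, Fin.cons_zero, Fin.cons_succ, Fin.cons_zero]
    exact p.1.2
  · rintro ⟨p, g⟩ _ ⟨p', g'⟩ _ h
    simp only at h
    rw [Fin.cons_inj, Fin.cons_inj] at h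
    obtain ⟨h1, h2, h3⟩ := h
    simp only [Fin.mk.injEq] at h1 h2
    have : p = p' := Subtype.ext (Prod.ext h1 h2)
    rw [this, h3]

/-- The `d`-dimensional permutation matrix with `1`-entries `(i, σ i, i, …, i)`. -/
def permMat {k : ℕ} (σ : Fin k → Fin k) (e : ℕ) : Finset (Fin (e + 2) → Fin k) :=
  univ.image (fun i : Fin k => fun l : Fin (e + 2) => if l = 1 then σ i else i)

lemma isPerm_permMat {k : ℕ} {σ : Fin k → Fin k} (hσ : Function.Bijective σ) (e : ℕ) :
    IsPerm (permMat σ e) := by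
  intro l i
  by_cases hl : l = 1
  · obtain ⟨i', hi'⟩ := hσ.2 i
    refine ⟨fun l => if l = 1 then σ i' else i', ⟨?_, ?_⟩, ?_⟩
    · simp only [permMat, mem_image, mem_univ, true_and]
      exact ⟨i', rfl⟩
    · simp only [hl, if_true]
      exact hi'
    · rintro p ⟨hp, hpl⟩
      simp only [permMat, mem_image, mem_univ, true_and] at hp
      obtain ⟨i'', rfl⟩ := hp
      simp only [hl, if_true] at hpl
      have : i'' = i' := hσ.1 (hpl.trans hi'.symm)
      rw [this]
  · refine ⟨fun l => if l = 1 then σ i else i, ⟨?_, ?_⟩, ?_⟩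
    · simp only [permMat, mem_image, mem_univ, true_and]
      exact ⟨i, rfl⟩
    · simp only [hl, if_false]
    · rintro p ⟨hp, hpl⟩
      simp only [permMat, mem_image, mem_univ, true_and] at hp
      obtain ⟨i'', rfl⟩ := hp
      simp only [hl, if_false] at hpl
      rw [hpl]

lemma contains_cyl {k n e : ℕ} {σ : Fin k → Fin k} {A : Finset (ℕ × ℕ)}
    (h : Contains (cyl A n e) (permMat σ e)) :
    ∃ u v : Fin k → ℕ, StrictMono u ∧ StrictMono v ∧ (∀ i, u i < n ∧ v i < n) ∧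
      ∀ i, (u i, v (σ i)) ∈ A := by
  obtain ⟨j, hj, hA⟩ := h
  refine ⟨fun i => j 0 i, fun i => j 1 i, fun a b hab => hj 0 hab, fun a b hab => hj 1 hab,
    fun i => ⟨(j 0 i).2, (j 1 i).2⟩, ?_⟩
  intro i
  have h1 := hA (fun l => if l = 1 then σ i else i) (by
    simp only [permMat, mem_image, mem_univ, true_and]
    exact ⟨i, rfl⟩)
  simp only [cyl, mem_filter, mem_univ, true_and] at h1
  simpa using h1

/-- The transposition of the first `s²` indices, read as an `s × s` array. -/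
def transp (s k : ℕ) (hs : s * s ≤ k) (i : Fin k) : Fin k :=
  if h : (i : ℕ) < s * s then
    ⟨(i % s) * s + i / s, by
      have hs0 : 0 < s := by
        rcases Nat.eq_zero_or_pos s with rfl | h0
        · simp at h
        · exact h0
      have h1 : (i : ℕ) / s < s := Nat.div_lt_of_lt_mul h
      have h2 : (i : ℕ) % s < s := Nat.mod_lt _ hs0
      have h3 : ((i : ℕ) % s + 1) * s ≤ s * s := Nat.mul_le_mul_right _ h2
      rw [Nat.add_mul, one_mul] at h3
      omega⟩
  else i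

lemma transp_apply (s k : ℕ) (hs : s * s ≤ k) (a b : Fin s) (h : (a : ℕ) * s + b < k)
    (h' : (b : ℕ) * s + a < k) : transp s k hs ⟨a * s + b, h⟩ = ⟨b * s + a, h'⟩ := by
  have hs0 : 0 < s := Fin.pos a
  have h3 : ((a : ℕ) + 1) * s ≤ s * s := Nat.mul_le_mul_right _ a.2
  rw [Nat.add_mul, one_mul] at h3
  have h4 : (a : ℕ) * s + b < s * s := by have := b.2; omega
  unfold transp
  rw [dif_pos h4]
  apply Fin.ext
  simp only
  have e1 : ((a : ℕ) * s + b) % s = b := by
    rw [Nat.add_comm, Nat.add_mul_mod_self_right, Nat.mod_eq_of_lt b.2]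
  have e2 : ((a : ℕ) * s + b) / s = a := by
    rw [Nat.add_comm, Nat.add_mul_div_right _ _ hs0, Nat.div_eq_of_lt b.2, Nat.zero_add]
  rw [e1, e2]

lemma transp_involutive (s k : ℕ) (hs : s * s ≤ k) : Function.Involutive (transp s k hs) := by
  intro i
  by_cases h : (i : ℕ) < s * s
  · have hs0 : 0 < s := by
      rcases Nat.eq_zero_or_pos s with rfl | h0
      · simp at h
      · exact h0
    have h1 : (i : ℕ) / s < s := Nat.div_lt_of_lt_mul h
    have h2 : (i : ℕ) % s < s := Nat.mod_lt _ hs0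
    have h3 : ((i : ℕ) % s + 1) * s ≤ s * s := Nat.mul_le_mul_right _ h2
    have h3' : ((i : ℕ) / s + 1) * s ≤ s * s := Nat.mul_le_mul_right _ h1
    rw [Nat.add_mul, one_mul] at h3 h3'
    have hi : i = ⟨((⟨i / s, h1⟩ : Fin s) : ℕ) * s + ((⟨i % s, h2⟩ : Fin s) : ℕ), by
        simp only; omega⟩ := by
      apply Fin.ext
      simp only
      exact (Nat.div_add_mod' _ _).symm
    conv_lhs => rw [hi]
    rw [transp_apply s k hs ⟨i / s, h1⟩ ⟨i % s, h2⟩ (by simp only; omega) (by simp only; omega),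
      transp_apply s k hs ⟨i % s, h2⟩ ⟨i / s, h1⟩ (by simp only; omega) (by simp only; omega)]
    exact hi.symm
  · have : transp s k hs i = i := by
      unfold transp
      rw [dif_neg h]
    rw [this, this]

lemma hasMinor_of_contains {s k n e : ℕ} (hs : s * s ≤ k) {A : Finset (ℕ × ℕ)}
    (h : Contains (cyl A n e) (permMat (transp s k hs) e)) : HasMinor A s := by
  obtain ⟨u, v, hu, hv, -, hA⟩ := contains_cyl h
  have hlt : ∀ a b : Fin s, (a : ℕ) * s + b < k := by
    intro a b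
    have h3 : ((a : ℕ) + 1) * s ≤ s * s := Nat.mul_le_mul_right _ a.2
    rw [Nat.add_mul, one_mul] at h3
    have := b.2
    omega
  have hmono : ∀ a a' b b' : Fin s, a < a' → (a : ℕ) * s + b < (a' : ℕ) * s + b' := by
    intro a a' b b' haa
    have h3 : ((a : ℕ) + 1) * s ≤ a' * s := Nat.mul_le_mul_right _ haa
    rw [Nat.add_mul, one_mul] at h3
    have := b.2
    omega
  refine ⟨fun a b => u ⟨a * s + b, hlt a b⟩, fun a b => v ⟨b * s + a, hlt b a⟩, ?_, ?_, ?_⟩
  · intro a a' b b' haa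
    apply hu
    rw [Fin.mk_lt_mk]
    exact hmono a a' b b' haa
  · intro a a' b b' hbb
    apply hv
    rw [Fin.mk_lt_mk]
    exact hmono b b' a a' hbb
  · intro a b
    have := hA ⟨a * s + b, hlt a b⟩
    rw [transp_apply s k hs a b (hlt a b) (hlt b a)] at this
    exact this

end Pool.Agent.Hhelper47.PermExt
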