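import Pool.Agent.Hhelper47.PermExt.Skel

/-!
A dense matrix of order `2 ^ m` without a large all-ones interval minor.
-/

set_option autoImplicit false

namespace Pool.Agent.Hhelper47.PermExt

open Finset

/-- `A` contains the all-ones `R × R` matrix as an interval minor. -/
def HasMinor (A : Finset (ℕ × ℕ)) (R : ℕ) : Prop :=
  ∃ x y : Fin R → Fin R → ℕ, (∀ a a' b b', a < a' → x a b < x a' b') ∧
    (∀ a a' b b', b < b' → y a b < y a' b') ∧ ∀ a b, (x a b, y a b) ∈ A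

lemma core (m : ℕ) : ∃ A : Finset (ℕ × ℕ), A ⊆ range (2 ^ m) ×ˢ range (2 ^ m) ∧
    ¬ HasMinor A (9 * (m + 1)) ∧
    (2:ℝ) ^ (2 * (m:ℝ) - ((m:ℝ) + 1) / 2 - 1) ≤ (A.card : ℝ) := by
  classical
  set R : ℕ := 9 * (m + 1) with hR
  set q : ℝ := (2:ℝ) ^ (-(1 / (2 * ((m:ℝ) + 1)))) with hq
  have hM : (0:ℝ) < (m:ℝ) + 1 := by positivity
  have hq0 : 0 < q := by rw [hq]; positivity
  have hq1 : q ≤ 1 := by
    rw [hq]
    apply Real.rpow_le_one_of_one_le_of_nonpos (by norm_num)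
    have : (0:ℝ) < 1 / (2 * ((m:ℝ) + 1)) := by positivity
    linarith
  set I : Finset (ℕ × ℕ) := range (2 ^ m) ×ˢ range (2 ^ m) with hI
  set J : Finset (BinaryTree Unit × BinaryTree Unit) :=
    BinaryTree.treesOfNumNodesEq R ×ˢ BinaryTree.treesOfNumNodesEq R with hJ
  set W : ℕ × ℕ → Finset (ℕ × ℕ) := fun p =>
    (range (m + 1) ×ˢ range (m + 1)).image
      (fun e : ℕ × ℕ => ((2 ^ m + p.1) / 2 ^ e.1, (2 ^ m + p.2) / 2 ^ e.2)) with hW
  set B : BinaryTree Unit × BinaryTree Unit → Finset (ℕ × ℕ) := fun p =>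
    nodeSet p.1 1 ×ˢ nodeSet p.2 1 with hB
  have hIcard : (I.card : ℝ) = (2:ℝ) ^ (2 * (m:ℝ)) := by
    rw [hI, card_product, card_range]
    push_cast
    rw [← Real.rpow_natCast, ← Real.rpow_add (by norm_num)]
    ring_nf
  have hJcard : (J.card : ℝ) ≤ (2:ℝ) ^ (36 * ((m:ℝ) + 1)) := by
    have h1 : J.card ≤ 4 ^ R * 4 ^ R := by
      rw [hJ, card_product]
      exact Nat.mul_le_mul (card_trees_le R) (card_trees_le R)
    have h2 : ((4 ^ R * 4 ^ R : ℕ) : ℝ) = (2:ℝ) ^ (36 * ((m:ℝ) + 1)) := by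
      rw [← pow_add]
      push_cast
      rw [show (4:ℝ) = 2 ^ 2 by norm_num, ← pow_mul, ← Real.rpow_natCast]
      congr 1
      rw [hR]
      push_cast
      ring
    rw [← h2]
    exact_mod_cast h1
  have hqw : q ^ ((m + 1) ^ 2) = (2:ℝ) ^ (-(((m:ℝ) + 1) / 2)) := by
    rw [hq, ← Real.rpow_natCast, ← Real.rpow_mul (by norm_num)]
    congr 1
    push_cast
    field_simp
  have hqb : q ^ (R ^ 2) = (2:ℝ) ^ (-(81 * ((m:ℝ) + 1) / 2)) := by
    rw [hq, ← Real.rpow_natCast, ← Real.rpow_mul (by norm_num)]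
    congr 1
    rw [hR]
    push_cast
    field_simp
    norm_num
  have hJq : (J.card : ℝ) * q ^ (R ^ 2) ≤ (2:ℝ) ^ (-(((m:ℝ) + 1) / 2) - 1) := by
    calc (J.card : ℝ) * q ^ (R ^ 2) ≤ (2:ℝ) ^ (36 * ((m:ℝ) + 1)) * (2:ℝ) ^ (-(81 * ((m:ℝ) + 1) / 2)) := by
          rw [hqb]
          exact mul_le_mul_of_nonneg_right hJcard (by positivity)
      _ = (2:ℝ) ^ (36 * ((m:ℝ) + 1) + -(81 * ((m:ℝ) + 1) / 2)) := by
          rw [Real.rpow_add (by norm_num)]
      _ ≤ (2:ℝ) ^ (-(((m:ℝ) + 1) / 2) - 1) := by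
          apply Real.rpow_le_rpow_of_exponent_le (by norm_num)
          have : (0:ℝ) ≤ m := by positivity
          linarith
  have hhalf : (2:ℝ) ^ (-(((m:ℝ) + 1) / 2) - 1) = (2:ℝ) ^ (-(((m:ℝ) + 1) / 2)) / 2 := by
    rw [Real.rpow_sub (by norm_num), Real.rpow_one]
  have hposw : (0:ℝ) < (2:ℝ) ^ (-(((m:ℝ) + 1) / 2)) := by positivity
  obtain ⟨K, hK1, hK2⟩ := exists_good I J W B (range (2 ^ (m + 1)) ×ˢ range (2 ^ (m + 1)))
    (by
      intro p hp u hu
      simp only [hI, mem_product, mem_range] at hp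
      simp only [hW, mem_image, mem_product, mem_range] at hu
      obtain ⟨e, he, rfl⟩ := hu
      simp only [mem_product, mem_range]
      have h1 := Nat.div_le_self (2 ^ m + p.1) (2 ^ e.1)
      have h2 := Nat.div_le_self (2 ^ m + p.2) (2 ^ e.2)
      rw [pow_succ]
      omega)
    hq0 hq1 ((m + 1) ^ 2) (R ^ 2)
    (by
      intro p _
      refine card_image_le.trans ?_
      rw [card_product, card_range, sq])
    (by
      intro p hp
      simp only [hJ, mem_product, BinaryTree.mem_treesOfNumNodesEq] at hp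
      simp only [hB]
      rw [card_product, card_nodeSet _ _ le_rfl, card_nodeSet _ _ le_rfl, hp.1, hp.2, sq])
    (by
      rw [hqw]
      refine lt_of_le_of_lt hJq ?_
      rw [hhalf]
      linarith)
    (by
      rw [hI]
      exact ⟨(0, 0), by simp⟩)
  refine ⟨I.filter (fun p => W p ⊆ K), filter_subset _ _, ?_, ?_⟩
  · rintro ⟨x, y, hx, hy, hA⟩
    have hRpos : 0 < R := by rw [hR]; omega
    have : Nonempty (Fin R) := ⟨⟨0, hRpos⟩⟩
    have hroot : ∀ z < 2 ^ m, (2 ^ m + z) / 2 ^ m = 1 := by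
      intro z hz
      rw [Nat.add_div_left _ (by positivity), Nat.div_eq_of_lt hz]
    have hmem : ∀ a b, x a b < 2 ^ m ∧ y a b < 2 ^ m ∧ W (x a b, y a b) ⊆ K := by
      intro a b
      have := hA a b
      simp only [hI, mem_filter, mem_product, mem_range] at this
      exact ⟨this.1.1, this.1.2, this.2⟩
    obtain ⟨t, ht, ht'⟩ := exists_tree_exact (fun a b => 2 ^ m + x a b)
      (fun a a' b b' h => by have := hx a a' b b' h; simpa using this) m
      (fun a b => hroot _ (hmem a b).1)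
    obtain ⟨s, hs, hs'⟩ := exists_tree_exact (fun b a => 2 ^ m + y a b)
      (fun b b' a a' h => by have := hy a a' b b' h; simpa using this) m
      (fun b a => hroot _ (hmem a b).2.1)
    refine hK1 (t, s) ?_ ?_
    · simp only [hJ, mem_product, BinaryTree.mem_treesOfNumNodesEq]
      exact ⟨ht, hs⟩
    · rintro ⟨u, v⟩ huv
      simp only [hB, mem_product] at huv
      obtain ⟨a, j, hj, ha⟩ := ht' u huv.1
      obtain ⟨b, j', hj', hb⟩ := hs' v huv.2
      apply (hmem a b).2.2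
      simp only [hW, mem_image, mem_product, mem_range]
      refine ⟨(j, j'), ⟨by simp only; omega, by simp only; omega⟩, ?_⟩
      have h1 := ha b
      have h2 := hb a
      simp only at h1 h2 ⊢
      rw [h1, h2]
  · refine le_trans ?_ hK2
    rw [hqw, hIcard]
    have h3 : (2:ℝ) ^ (-(((m:ℝ) + 1) / 2)) / 2 ≤
        (2:ℝ) ^ (-(((m:ℝ) + 1) / 2)) - (J.card : ℝ) * q ^ (R ^ 2) := by
      rw [hhalf] at hJq
      linarith
    calc (2:ℝ) ^ (2 * (m:ℝ) - ((m:ℝ) + 1) / 2 - 1)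
        = (2:ℝ) ^ (2 * (m:ℝ)) * ((2:ℝ) ^ (-(((m:ℝ) + 1) / 2)) / 2) := by
          rw [← hhalf, ← Real.rpow_add (by norm_num)]
          congr 1
          ring
      _ ≤ _ := mul_le_mul_of_nonneg_left h3 (by positivity)

end Pool.Agent.Hhelper47.PermExt
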