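import Pool.Agent.Hhelper47.PermExt.Defs

/-!
Monotonicity of the extremal constant in the dimension.
-/

set_option autoImplicit false

namespace Pool.Agent.Hhelper47.PermExt

open Finset

variable {d k n : ℕ}

/-- Repeat the first coordinate as a new last coordinate. -/
def ext (hd : 0 < d) (p : Fin d → Fin k) : Fin (d + 1) → Fin k :=
  Fin.snoc (α := fun _ => Fin k) p (p ⟨0, hd⟩)

lemma ext_castSucc (hd : 0 < d) (p : Fin d → Fin k) (l : Fin d) : ext hd p l.castSucc = p l := by
  unfold ext
  simp

lemma ext_last (hd : 0 < d) (p : Fin d → Fin k) : ext hd p (Fin.last d) = p ⟨0, hd⟩ := by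
  unfold ext
  simp

lemma isPerm_ext (hd : 0 < d) {P : Finset (Fin d → Fin k)} (hP : IsPerm P) :
    IsPerm (P.image (ext hd)) := by
  intro l i
  refine Fin.lastCases ?_ (fun l => ?_) l
  · obtain ⟨p, ⟨hp, hpi⟩, huniq⟩ := hP ⟨0, hd⟩ i
    refine ⟨ext hd p, ⟨mem_image_of_mem _ hp, by rw [ext_last]; exact hpi⟩, ?_⟩
    rintro q ⟨hq, hqi⟩
    rw [mem_image] at hq
    obtain ⟨p', hp', rfl⟩ := hq
    rw [ext_last] at hqi
    rw [huniq p' ⟨hp', hqi⟩]
  · obtain ⟨p, ⟨hp, hpi⟩, huniq⟩ := hP l i
    refine ⟨ext hd p, ⟨mem_image_of_mem _ hp, by rw [ext_castSucc]; exact hpi⟩, ?_⟩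
    rintro q ⟨hq, hqi⟩
    rw [mem_image] at hq
    obtain ⟨p', hp', rfl⟩ := hq
    rw [ext_castSucc] at hqi
    rw [huniq p' ⟨hp', hqi⟩]

lemma f_mul_le (hd : 0 < d) (P : Finset (Fin d → Fin k)) :
    f n P * n ≤ f n (P.image (ext hd)) := by
  classical
  by_cases hne : ((Finset.univ : Finset (Finset (Fin d → Fin n))).filter
      (fun A => ¬ Contains A P)).Nonempty
  · obtain ⟨A, hA, hAf⟩ := Finset.exists_mem_eq_sup _ hne Finset.card
    have hfA : f n P = A.card := by
      unfold f
      rw [← hAf]
    rw [mem_filter] at hA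
    set A' : Finset (Fin (d + 1) → Fin n) := univ.filter (fun z => (fun l => z l.castSucc) ∈ A)
      with hA'
    have havoid : ¬ Contains A' (P.image (ext hd)) := by
      rintro ⟨j, hj, hjA⟩
      apply hA.2
      refine ⟨fun l => j l.castSucc, fun l => hj _, ?_⟩
      intro p hp
      have h1 := hjA (ext hd p) (mem_image_of_mem _ hp)
      rw [hA', mem_filter] at h1
      have h2 := h1.2
      simp only [ext_castSucc] at h2
      exact h2
    refine le_trans ?_ (le_f _ havoid)
    rw [hfA]
    have h1 : A.card * n = (A ×ˢ (univ : Finset (Fin n))).card := by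
      rw [card_product, card_univ, Fintype.card_fin]
    rw [h1]
    apply card_le_card_of_injOn
      (fun p : (Fin d → Fin n) × Fin n => (Fin.snoc (α := fun _ => Fin n) p.1 p.2 :
        Fin (d + 1) → Fin n))
    · intro p hp
      rw [mem_coe, mem_product] at hp
      rw [mem_coe, hA', mem_filter]
      refine ⟨mem_univ _, ?_⟩
      have : (fun l : Fin d => (Fin.snoc (α := fun _ => Fin n) p.1 p.2 :
        Fin (d + 1) → Fin n) l.castSucc) = p.1 := by
        funext l
        simp
      rw [this]
      exact hp.1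
    · rintro ⟨p, a⟩ _ ⟨p', a'⟩ _ h
      simp only at h
      have h2 : p = p' := by
        funext l
        have := congrFun h l.castSucc
        simpa using this
      have h3 : a = a' := by
        have := congrFun h (Fin.last d)
        simpa using this
      rw [h2, h3]
  · have : f n P = 0 := by
      rw [not_nonempty_iff_eq_empty] at hne
      unfold f
      rw [hne]
      simp
    rw [this]
    simp

/-- The extremal constant does not decrease with the dimension. -/
theorem M_mono (hd : 1 ≤ d) (k : ℕ) : M d k ≤ M (d + 1) k := by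
  unfold M
  refine iSup₂_le fun n hn => iSup₂_le fun P hP => ?_
  refine le_trans ?_ (le_iSup₂_of_le n hn (le_iSup₂_of_le (P.image (ext hd)) (isPerm_ext hd hP)
    le_rfl))
  have h1 := f_mul_le (n := n) hd P
  have hn0 : (n : ENNReal) ≠ 0 := by
    have : n ≠ 0 := by omega
    exact_mod_cast this
  have hnt : (n : ENNReal) ≠ ⊤ := ENNReal.natCast_ne_top n
  have h2 : (f n P : ENNReal) / (n : ENNReal) ^ (d - 1) =
      ((f n P : ENNReal) * n) / ((n : ENNReal) ^ (d - 1) * n) := by
    rw [ENNReal.mul_div_mul_right _ _ hn0 hnt]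
  rw [h2, ← pow_succ, show d - 1 + 1 = d + 1 - 1 by omega]
  apply ENNReal.div_le_div_right
  exact_mod_cast h1

end Pool.Agent.Hhelper47.PermExt
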