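import Mathlib

/-!
A first moment lemma for a random subset of a finite set, in weighted form.
-/

set_option autoImplicit false

namespace Pool.Agent.Hhelper47.PermExt

open Finset

variable {γ : Type} [DecidableEq γ]

/-- The weight of `K` as a `q`-random subset of `G`. -/
noncomputable def wt (q : ℝ) (G K : Finset γ) : ℝ := q ^ K.card * (1 - q) ^ (G.card - K.card)

lemma wt_nonneg {q : ℝ} (h0 : 0 ≤ q) (h1 : q ≤ 1) (G K : Finset γ) : 0 ≤ wt q G K := by
  unfold wt
  have : (0:ℝ) ≤ 1 - q := by linarith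
  positivity

lemma sum_wt (q : ℝ) (G : Finset γ) : ∑ K ∈ G.powerset, wt q G K = 1 := by
  unfold wt
  rw [Finset.sum_pow_mul_eq_add_pow]
  simp

lemma sum_wt_superset (q : ℝ) (G B : Finset γ) (hB : B ⊆ G) :
    ∑ K ∈ G.powerset with B ⊆ K, wt q G K = q ^ B.card := by
  have h1 : (G.powerset.filter (fun K => B ⊆ K)) = (G \ B).powerset.image (fun t => B ∪ t) := by
    rw [← Finset.Icc_eq_image_powerset hB]
    ext K
    simp only [mem_filter, mem_powerset, mem_Icc, le_eq_subset]
    tauto
  rw [h1, sum_image]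
  · have h2 : ∀ t ∈ (G \ B).powerset, wt q G (B ∪ t) =
        q ^ B.card * (q ^ t.card * (1 - q) ^ ((G \ B).card - t.card)) := by
      intro t ht
      rw [mem_powerset] at ht
      have hd : Disjoint B t := by
        rw [Finset.disjoint_left]
        intro a ha ha'
        exact (mem_sdiff.1 (ht ha')).2 ha
      unfold wt
      rw [card_union_of_disjoint hd, pow_add, card_sdiff_of_subset hB, Nat.sub_sub]
      ring
    rw [sum_congr rfl h2, ← mul_sum, Finset.sum_pow_mul_eq_add_pow]
    simp
  · intro t ht t' ht' h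
    simp only [coe_powerset, Set.mem_preimage, Set.mem_powerset_iff, coe_subset] at ht ht'
    have hd : Disjoint B t := by
      rw [Finset.disjoint_left]
      intro a ha ha'
      exact (mem_sdiff.1 (ht ha')).2 ha
    have hd' : Disjoint B t' := by
      rw [Finset.disjoint_left]
      intro a ha ha'
      exact (mem_sdiff.1 (ht' ha')).2 ha
    have h' : B ∪ t = B ∪ t' := h
    calc t = (B ∪ t) \ B := by rw [union_sdiff_cancel_left hd]
      _ = (B ∪ t') \ B := by rw [h']
      _ = t' := by rw [union_sdiff_cancel_left hd']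

lemma sum_wt_superset_le {q : ℝ} (h0 : 0 ≤ q) (G B : Finset γ) :
    ∑ K ∈ G.powerset with B ⊆ K, wt q G K ≤ q ^ B.card := by
  by_cases hB : B ⊆ G
  · exact (sum_wt_superset q G B hB).le
  · have : (G.powerset.filter (fun K => B ⊆ K)) = ∅ := by
      rw [Finset.filter_eq_empty_iff]
      intro K hK hBK
      exact hB (hBK.trans (mem_powerset.1 hK))
    rw [this, sum_empty]
    positivity

/-- First moment method. `W i` are the wanted sets, `B j` the forbidden ones. -/
theorem exists_good {ι κ : Type} (I : Finset ι) (J : Finset κ) (W : ι → Finset γ) (B : κ → Finset γ)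
    (G : Finset γ) (hW : ∀ i ∈ I, W i ⊆ G) {q : ℝ} (h0 : 0 < q) (h1 : q ≤ 1) (w b : ℕ)
    (hWc : ∀ i ∈ I, (W i).card ≤ w) (hBc : ∀ j ∈ J, b ≤ (B j).card)
    (hpos : (J.card : ℝ) * q ^ b < q ^ w) (hI : I.Nonempty) :
    ∃ K : Finset γ, (∀ j ∈ J, ¬ B j ⊆ K) ∧
      (I.card : ℝ) * (q ^ w - J.card * q ^ b) ≤ ((I.filter (fun i => W i ⊆ K)).card : ℝ) := by
  classical
  by_contra hcon
  push Not at hcon
  set N : Finset γ → ℝ := fun K => ((I.filter (fun i => W i ⊆ K)).card : ℝ) with hN
  set T : ℝ := (I.card : ℝ) * (q ^ w - J.card * q ^ b) with hT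
  have hIpos : (0:ℝ) < I.card := by exact_mod_cast hI.card_pos
  have hTpos : 0 < T := by
    rw [hT]
    apply mul_pos hIpos
    linarith
  -- every K satisfies N K < T + |I| * #{j : B j ⊆ K}
  have hK : ∀ K : Finset γ, N K < T + I.card * ((J.filter (fun j => B j ⊆ K)).card : ℝ) := by
    intro K
    by_cases hgood : ∀ j ∈ J, ¬ B j ⊆ K
    · have := hcon K hgood
      have h2 : (0:ℝ) ≤ I.card * ((J.filter (fun j => B j ⊆ K)).card : ℝ) := by positivity
      linarith
    · push Not at hgood
      obtain ⟨j, hj, hjK⟩ := hgood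
      have h3 : (1:ℝ) ≤ ((J.filter (fun j => B j ⊆ K)).card : ℝ) := by
        have : 0 < (J.filter (fun j => B j ⊆ K)).card :=
          Finset.card_pos.2 ⟨j, mem_filter.2 ⟨hj, hjK⟩⟩
        exact_mod_cast this
      have h4 : N K ≤ I.card := by
        simp only [hN]
        exact_mod_cast Finset.card_filter_le _ _
      have h5 : (I.card : ℝ) * 1 ≤ I.card * ((J.filter (fun j => B j ⊆ K)).card : ℝ) :=
        mul_le_mul_of_nonneg_left h3 hIpos.le
      linarith
  have hsumN : ∑ K ∈ G.powerset, wt q G K * N K = ∑ i ∈ I, q ^ (W i).card := by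
    have : ∀ K ∈ G.powerset, wt q G K * N K = ∑ i ∈ I, if W i ⊆ K then wt q G K else 0 := by
      intro K _
      rw [← Finset.sum_filter, Finset.sum_const, nsmul_eq_mul, mul_comm]
    rw [Finset.sum_congr rfl this, Finset.sum_comm]
    apply Finset.sum_congr rfl
    intro i hi
    rw [← Finset.sum_filter, sum_wt_superset q G (W i) (hW i hi)]
  have hsumJ : ∑ K ∈ G.powerset, wt q G K * ((J.filter (fun j => B j ⊆ K)).card : ℝ)
      ≤ J.card * q ^ b := by
    have : ∀ K ∈ G.powerset, wt q G K * ((J.filter (fun j => B j ⊆ K)).card : ℝ) =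
        ∑ j ∈ J, if B j ⊆ K then wt q G K else 0 := by
      intro K _
      rw [← Finset.sum_filter, Finset.sum_const, nsmul_eq_mul, mul_comm]
    rw [Finset.sum_congr rfl this, Finset.sum_comm]
    calc ∑ j ∈ J, ∑ K ∈ G.powerset, (if B j ⊆ K then wt q G K else 0)
        ≤ ∑ j ∈ J, q ^ b := by
          apply Finset.sum_le_sum
          intro j hj
          rw [← Finset.sum_filter]
          refine (sum_wt_superset_le h0.le G (B j)).trans ?_
          exact pow_le_pow_of_le_one h0.le h1 (hBc j hj)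
      _ = J.card * q ^ b := by rw [Finset.sum_const, nsmul_eq_mul]
  have hlow : (I.card : ℝ) * q ^ w ≤ ∑ i ∈ I, q ^ (W i).card := by
    rw [← nsmul_eq_mul, ← Finset.sum_const]
    apply Finset.sum_le_sum
    intro i hi
    exact pow_le_pow_of_le_one h0.le h1 (hWc i hi)
  have hlt : ∑ K ∈ G.powerset, wt q G K * N K <
      ∑ K ∈ G.powerset, wt q G K * (T + I.card * ((J.filter (fun j => B j ⊆ K)).card : ℝ)) := by
    apply Finset.sum_lt_sum
    · intro K _
      exact mul_le_mul_of_nonneg_left (hK K).le (wt_nonneg h0.le h1 G K)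
    · refine ⟨G, by simp, ?_⟩
      apply mul_lt_mul_of_pos_left (hK G)
      unfold wt
      simp only [tsub_self, pow_zero, mul_one]
      positivity
  have hrhs : ∑ K ∈ G.powerset, wt q G K * (T + I.card * ((J.filter (fun j => B j ⊆ K)).card : ℝ))
      = T + I.card * ∑ K ∈ G.powerset, wt q G K * ((J.filter (fun j => B j ⊆ K)).card : ℝ) := by
    simp only [mul_add, Finset.sum_add_distrib]
    rw [← Finset.sum_mul, sum_wt, one_mul, Finset.mul_sum]
    congr 1
    apply Finset.sum_congr rfl
    intro K _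
    ring
  rw [hrhs, hsumN] at hlt
  have h6 : (I.card : ℝ) * ∑ K ∈ G.powerset, wt q G K * ((J.filter (fun j => B j ⊆ K)).card : ℝ)
      ≤ I.card * (J.card * q ^ b) := mul_le_mul_of_nonneg_left hsumJ hIpos.le
  have h7 : T = I.card * q ^ w - I.card * (J.card * q ^ b) := by rw [hT]; ring
  linarith

end Pool.Agent.Hhelper47.PermExt
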