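import Pool.Agent.Hhelper47.PermExt.Prob

/-!
Nodes of the dyadic tree in heap numbering (the children of `i` are `2 i` and `2 i + 1`), the
node set of a binary tree, and skeletons of interval minors.
-/

set_option autoImplicit false

namespace Pool.Agent.Hhelper47.PermExt

open Finset

/-- The set of heap indices of the nodes of the tree `t` whose root sits at the index `i`. -/
def nodeSet : BinaryTree Unit → ℕ → Finset ℕ
  | .nil, _ => ∅
  | .node _ l r, i => insert i (nodeSet l (2 * i) ∪ nodeSet r (2 * i + 1))

lemma exists_div_of_mem (t : BinaryTree Unit) : ∀ i u : ℕ, u ∈ nodeSet t i → ∃ s, u / 2 ^ s = i := by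
  induction t with
  | nil => intro i u hu; simp [nodeSet] at hu
  | node a l r ihl ihr =>
    intro i u hu
    simp only [nodeSet, mem_insert, mem_union] at hu
    rcases hu with rfl | hu | hu
    · exact ⟨0, by simp⟩
    · obtain ⟨s, hs⟩ := ihl _ _ hu
      refine ⟨s + 1, ?_⟩
      rw [pow_succ, ← Nat.div_div_eq_div_mul, hs]
      omega
    · obtain ⟨s, hs⟩ := ihr _ _ hu
      refine ⟨s + 1, ?_⟩
      rw [pow_succ, ← Nat.div_div_eq_div_mul, hs]
      omega

lemma le_of_div_pow {u s i : ℕ} (h : u / 2 ^ s = i) : i ≤ u := by
  rw [← h]; exact Nat.div_le_self _ _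

lemma card_nodeSet (t : BinaryTree Unit) : ∀ i : ℕ, 1 ≤ i → (nodeSet t i).card = t.numNodes := by
  induction t with
  | nil => intro i _; simp [nodeSet, BinaryTree.numNodes]
  | node a l r ihl ihr =>
    intro i hi
    have hdisj : Disjoint (nodeSet l (2 * i)) (nodeSet r (2 * i + 1)) := by
      rw [Finset.disjoint_left]
      intro u hu hu'
      obtain ⟨s, hs⟩ := exists_div_of_mem _ _ _ hu
      obtain ⟨s', hs'⟩ := exists_div_of_mem _ _ _ hu'
      rcases lt_trichotomy s s' with h | h | h
      · obtain ⟨c, rfl⟩ : ∃ c, s' = s + c + 1 := ⟨s' - s - 1, by omega⟩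
        rw [pow_succ, pow_add, ← Nat.div_div_eq_div_mul, ← Nat.div_div_eq_div_mul, hs] at hs'
        have h1 : 2 * i / 2 ^ c ≤ 2 * i := Nat.div_le_self _ _
        have h2 : 2 * i / 2 ^ c / 2 ≤ i := by omega
        omega
      · subst h; omega
      · obtain ⟨c, rfl⟩ : ∃ c, s = s' + c + 1 := ⟨s - s' - 1, by omega⟩
        rw [pow_succ, pow_add, ← Nat.div_div_eq_div_mul, ← Nat.div_div_eq_div_mul, hs'] at hs
        have h1 : (2 * i + 1) / 2 ^ c ≤ 2 * i + 1 := Nat.div_le_self _ _
        have h2 : (2 * i + 1) / 2 ^ c / 2 ≤ i := by omega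
        omega
    have hni : i ∉ nodeSet l (2 * i) ∪ nodeSet r (2 * i + 1) := by
      intro hu
      rw [mem_union] at hu
      rcases hu with hu | hu
      · obtain ⟨s, hs⟩ := exists_div_of_mem _ _ _ hu
        have := le_of_div_pow hs
        omega
      · obtain ⟨s, hs⟩ := exists_div_of_mem _ _ _ hu
        have := le_of_div_pow hs
        omega
    simp only [nodeSet]
    rw [card_insert_of_notMem hni, card_union_of_disjoint hdisj, ihl _ (by omega), ihr _ (by omega)]
    simp [BinaryTree.numNodes]

lemma shrink (t : BinaryTree Unit) : ∀ i s : ℕ, s ≤ t.numNodes →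
    ∃ t' : BinaryTree Unit, t'.numNodes = s ∧ nodeSet t' i ⊆ nodeSet t i := by
  induction t with
  | nil =>
    intro i s hs
    refine ⟨.nil, ?_, by simp⟩
    simp only [BinaryTree.numNodes] at hs ⊢
    omega
  | node a l r ihl ihr =>
    intro i s hs
    simp only [BinaryTree.numNodes] at hs
    rcases Nat.eq_zero_or_pos s with rfl | hpos
    · exact ⟨.nil, by simp [BinaryTree.numNodes], by simp [nodeSet]⟩
    · obtain ⟨tl, htl, htl'⟩ := ihl (2 * i) (min (s - 1) l.numNodes) (min_le_right _ _)
      obtain ⟨tr, htr, htr'⟩ := ihr (2 * i + 1) (s - 1 - min (s - 1) l.numNodes) (by omega)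
      refine ⟨.node () tl tr, ?_, ?_⟩
      · simp only [BinaryTree.numNodes, htl, htr]
        omega
      · simp only [nodeSet]
        exact insert_subset_insert _ (union_subset_union htl' htr')

/-- Number of binary trees with `s` nodes. -/
lemma card_trees_le (s : ℕ) : (BinaryTree.treesOfNumNodesEq s).card ≤ 4 ^ s := by
  rw [BinaryTree.treesOfNumNodesEq_card_eq_catalan, catalan_eq_centralBinom_div]
  refine (Nat.div_le_self _ _).trans ?_
  rw [Nat.centralBinom_eq_two_mul_choose]
  calc (2 * s).choose s ≤ 2 ^ (2 * s) := Nat.choose_le_two_pow _ _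
    _ = 4 ^ s := by rw [pow_mul]; norm_num

variable {R : ℕ} {β : Type} (x : Fin R → β → ℕ)

/-- All the points `x a b`, `b : β`, lie below the node `v` at height `j`. -/
def InNode (a : Fin R) (v j : ℕ) : Prop := ∀ b, x a b / 2 ^ j = v

/-- Skeleton of an ordered family of blocks of points. -/
lemma exists_tree (hx : ∀ a a' b b', a < a' → x a b < x a' b') [Nonempty β] :
    ∀ j v : ℕ, ∃ t : BinaryTree Unit,
      Nat.card {a : Fin R // InNode x a v j} ≤ t.numNodes ∧
      ∀ u ∈ nodeSet t v, ∃ a, ∃ j' ≤ j, InNode x a u j' := by
  classical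
  intro j
  induction j with
  | zero =>
    intro v
    by_cases hne : ∃ a, InNode x a v 0
    · refine ⟨.node () .nil .nil, ?_, ?_⟩
      · rw [Nat.card_eq_fintype_card]
        have : Fintype.card {a : Fin R // InNode x a v 0} ≤ 1 := by
          rw [Fintype.card_le_one_iff]
          rintro ⟨a, ha⟩ ⟨a', ha'⟩
          obtain ⟨b⟩ := (inferInstance : Nonempty β)
          have h1 := ha b
          have h2 := ha' b
          simp only [pow_zero, Nat.div_one] at h1 h2
          rcases lt_trichotomy a a' with h | h | h
          · have := hx a a' b b h; omega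
          · subst h; rfl
          · have := hx a' a b b h; omega
        simpa [BinaryTree.numNodes] using this
      · intro u hu
        simp only [nodeSet, union_empty, insert_empty_eq, mem_singleton] at hu
        subst hu
        obtain ⟨a, ha⟩ := hne
        exact ⟨a, 0, le_rfl, ha⟩
    · refine ⟨.nil, ?_, by simp [nodeSet]⟩
      push Not at hne
      have : IsEmpty {a : Fin R // InNode x a v 0} := ⟨fun a => hne a.1 a.2⟩
      simp
  | succ j ih =>
    intro v
    by_cases hne : ∃ a, InNode x a v (j + 1)
    · obtain ⟨tl, htl, htl'⟩ := ih (2 * v)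
      obtain ⟨tr, htr, htr'⟩ := ih (2 * v + 1)
      refine ⟨.node () tl tr, ?_, ?_⟩
      · simp only [BinaryTree.numNodes]
        rw [Nat.card_eq_fintype_card, Fintype.card_subtype] at htl htr ⊢
        -- points that straddle
        have hstr : ∀ a, InNode x a v (j + 1) → ∀ b, x a b / 2 ^ j = 2 * v ∨ x a b / 2 ^ j = 2 * v + 1 := by
          intro a ha b
          have := ha b
          rw [pow_succ, ← Nat.div_div_eq_div_mul] at this
          omega
        have hsub : (univ.filter (fun a => InNode x a v (j + 1))) ⊆
            ((univ.filter (fun a => InNode x a (2 * v) j)) ∪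
              (univ.filter (fun a => InNode x a (2 * v + 1) j))) ∪
            (univ.filter (fun a => InNode x a v (j + 1) ∧ ¬ InNode x a (2 * v) j ∧
              ¬ InNode x a (2 * v + 1) j)) := by
          intro a ha
          simp only [mem_filter, mem_univ, true_and, mem_union] at ha ⊢
          tauto
        have hone : (univ.filter (fun a => InNode x a v (j + 1) ∧ ¬ InNode x a (2 * v) j ∧
              ¬ InNode x a (2 * v + 1) j)).card ≤ 1 := by
          rw [Finset.card_le_one]
          have key : ∀ a a' : Fin R, a < a' → (InNode x a v (j + 1) ∧ ¬ InNode x a (2 * v) j ∧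
              ¬ InNode x a (2 * v + 1) j) → (InNode x a' v (j + 1) ∧ ¬ InNode x a' (2 * v) j ∧
              ¬ InNode x a' (2 * v + 1) j) → False := by
            intro a a' haa h h'
            have h1 : ∃ b, x a b / 2 ^ j = 2 * v + 1 := by
              by_contra hcon
              push Not at hcon
              apply h.2.1
              intro b
              rcases hstr a h.1 b with h2 | h2
              · exact h2
              · exact absurd h2 (hcon b)
            have h2 : ∃ b, x a' b / 2 ^ j = 2 * v := by
              by_contra hcon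
              push Not at hcon
              apply h'.2.2
              intro b
              rcases hstr a' h'.1 b with h2 | h2
              · exact absurd h2 (hcon b)
              · exact h2
            obtain ⟨b, hb⟩ := h1
            obtain ⟨b', hb'⟩ := h2
            have h3 : x a b / 2 ^ j ≤ x a' b' / 2 ^ j :=
              Nat.div_le_div_right (hx a a' b b' haa).le
            omega
          intro a ha a' ha'
          simp only [mem_filter, mem_univ, true_and] at ha ha'
          rcases lt_trichotomy a a' with h | h | h
          · exact (key a a' h ha ha').elim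
          · exact h
          · exact (key a' a h ha' ha).elim
        have h5 := (card_le_card hsub).trans (card_union_le _ _)
        have h6 := card_union_le (univ.filter (fun a => InNode x a (2 * v) j))
              (univ.filter (fun a => InNode x a (2 * v + 1) j))
        omega
      · intro u hu
        simp only [nodeSet, mem_insert, mem_union] at hu
        rcases hu with rfl | hu | hu
        · obtain ⟨a, ha⟩ := hne
          exact ⟨a, j + 1, le_rfl, ha⟩
        · obtain ⟨a, j', hj', h⟩ := htl' u hu
          exact ⟨a, j', by omega, h⟩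
        · obtain ⟨a, j', hj', h⟩ := htr' u hu
          exact ⟨a, j', by omega, h⟩
    · refine ⟨.nil, ?_, by simp [nodeSet]⟩
      push Not at hne
      have : IsEmpty {a : Fin R // InNode x a v (j + 1)} := ⟨fun a => hne a.1 a.2⟩
      simp

/-- If all the points lie below the root `1` at height `m`, there is a tree with exactly `R`
nodes, all of whose nodes contain a block. -/
lemma exists_tree_exact (hx : ∀ a a' b b', a < a' → x a b < x a' b') [Nonempty β] (m : ℕ)
    (hm : ∀ a b, x a b / 2 ^ m = 1) :
    ∃ t : BinaryTree Unit, t.numNodes = R ∧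
      ∀ u ∈ nodeSet t 1, ∃ a, ∃ j' ≤ m, InNode x a u j' := by
  classical
  obtain ⟨t, ht, ht'⟩ := exists_tree x hx m 1
  have h1 : Nat.card {a : Fin R // InNode x a 1 m} = R := by
    rw [Nat.card_eq_fintype_card, Fintype.card_subtype]
    have : (univ.filter (fun a => InNode x a 1 m)) = univ := by
      ext a
      simp only [mem_filter, mem_univ, true_and, iff_true]
      exact fun b => hm a b
    rw [this]
    simp
  rw [h1] at ht
  obtain ⟨t', h2, h3⟩ := shrink t 1 R ht
  exact ⟨t', h2, fun u hu => ht' u (h3 hu)⟩

end Pool.Agent.Hhelper47.PermExt
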